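import Pool.Agent.Helper41.AN.Defs

/-!
# Project AN, module 3: a cycle of prime length from a factorization over an extension field
-/

set_option autoImplicit false

namespace Pool.Agent.Helper41.AN

open Polynomial Equiv MulAction

/-- An irreducible separable polynomial of prime degree: an automorphism of an algebraic closure
which has order `p` on the roots. -/
theorem h87_exists_tau {𝓚 Ω : Type} [Field 𝓚] [Field Ω] [Algebra 𝓚 Ω] [IsAlgClosed Ω]
    [Algebra.IsAlgebraic 𝓚 Ω] {p : ℕ} (hp : p.Prime) (q : 𝓚[X]) (hirr : Irreducible q)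
    (hsep : q.Separable) (hdeg : q.natDegree = p) :
    ∃ τ : Ω ≃ₐ[𝓚] Ω, (∀ z ∈ q.rootSet Ω, (τ ^ p) z = z) ∧ ∃ z ∈ q.rootSet Ω, τ z ≠ z := by
  classical
  have hnorm : Normal 𝓚 Ω := by
    have : IsAlgClosure 𝓚 Ω := ⟨inferInstance, inferInstance⟩
    exact IsAlgClosure.normal 𝓚 Ω
  have hspl : (q.map (algebraMap 𝓚 Ω)).Splits := IsAlgClosed.splits _
  let M := IntermediateField.adjoin 𝓚 (q.rootSet Ω)
  have hSF : q.IsSplittingField 𝓚 M := IntermediateField.adjoin_rootSet_isSplittingField hspl
  have hgal : IsGalois 𝓚 M := IsGalois.of_separable_splitting_field hsep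
  have hfd : FiniteDimensional 𝓚 M := IsSplittingField.finiteDimensional M q
  -- a root in `M`
  have hq0 : q.degree ≠ 0 := by
    intro h
    have := natDegree_eq_zero_iff_degree_le_zero.2 h.le
    rw [hdeg] at this
    exact hp.ne_zero this
  obtain ⟨α, hα⟩ := Splits.exists_eval_eq_zero (IsSplittingField.splits M q)
    (by rwa [degree_map])
  have hα' : aeval α q = 0 := by
    rw [aeval_def, ← eval_map, hα]
  have hdvd : p ∣ Module.finrank 𝓚 M := by
    have h1 : Module.finrank 𝓚 (IntermediateField.adjoin 𝓚 {α}) = p := by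
      rw [IntermediateField.adjoin.finrank (Algebra.IsIntegral.isIntegral α), ← hdeg,
        ← minpoly.eq_of_irreducible hirr hα', natDegree_mul_C]
      exact inv_ne_zero (leadingCoeff_ne_zero.2 hirr.ne_zero)
    rw [← h1, ← Module.finrank_mul_finrank 𝓚 (IntermediateField.adjoin 𝓚 {α}) M]
    exact dvd_mul_right _ _
  rw [← IsGalois.card_aut_eq_finrank] at hdvd
  have := Fact.mk hp
  obtain ⟨t, ht⟩ := exists_prime_orderOf_dvd_card' p hdvd
  have hcomm : ∀ (u : M ≃ₐ[𝓚] M) (z : M), (AlgEquiv.liftNormal u Ω) (z : Ω) = (u z : M) := by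
    intro u z
    exact AlgEquiv.liftNormal_commutes u Ω z
  refine ⟨AlgEquiv.liftNormal t Ω, ?_, ?_⟩
  · intro z hz
    have hzM : z ∈ M := IntermediateField.subset_adjoin _ _ hz
    have key : ∀ k : ℕ, ((AlgEquiv.liftNormal t Ω) ^ k) z = ((t ^ k) ⟨z, hzM⟩ : M) := by
      intro k
      induction k with
      | zero => simp
      | succ k ih =>
        rw [pow_succ', pow_succ', AlgEquiv.mul_apply, AlgEquiv.mul_apply, ih, hcomm]
    rw [key, ← ht, pow_orderOf_eq_one]
    rfl
  · by_contra hcon
    push Not at hcon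
    have ht1 : t = 1 := by
      have h1 : IntermediateField.adjoin 𝓚 (q.rootSet Ω) ≤
          IntermediateField.fixedField (Subgroup.zpowers (AlgEquiv.liftNormal t Ω)) := by
        rw [IntermediateField.adjoin_le_iff]
        intro z hz
        rw [SetLike.mem_coe, IntermediateField.mem_fixedField_iff]
        intro g hg
        obtain ⟨k, rfl⟩ := Subgroup.mem_zpowers_iff.1 hg
        have h2 : AlgEquiv.liftNormal t Ω ∈ MulAction.stabilizer (Ω ≃ₐ[𝓚] Ω) z := by
          rw [MulAction.mem_stabilizer_iff]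
          exact hcon z hz
        have h3 := Subgroup.zpow_mem _ h2 k
        exact MulAction.mem_stabilizer_iff.1 h3
      ext z
      have h2 := h1 z.2
      rw [IntermediateField.mem_fixedField_iff] at h2
      have h3 := h2 _ (Subgroup.mem_zpowers (AlgEquiv.liftNormal t Ω))
      rw [hcomm] at h3
      simpa using h3
    rw [ht1, orderOf_one] at ht
    exact hp.one_lt.ne ht

theorem exists_cycle {K L : Type} [Field K] [Field L] [Algebra K L] {n p : ℕ} (hp : p.Prime)
    (F : K[X]) (hsep : F.Separable) (y : Fin n → L) (hy : Function.Injective y)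
    (hF : F.map (algebraMap K L) = ∏ i, (X - C (y i)))
    (hgen : IntermediateField.adjoin K (Set.range y) = ⊤)
    (θ : (L ≃ₐ[K] L) →* Perm (Fin n)) (hθ : ∀ σ i, σ (y i) = y (θ σ i))
    (𝓚 : Type) [Field 𝓚] [Algebra K 𝓚] (q : 𝓚[X]) (s : Multiset 𝓚)
    (hq : F.map (algebraMap K 𝓚) = q * (s.map (fun a => X - C a)).prod) (hirr : Irreducible q)
    (hdeg : q.natDegree = p) :
    ∃ σ : L ≃ₐ[K] L, (θ σ).IsCycle ∧ (θ σ).support.card = p := by
  classical
  have hF0 : F ≠ 0 := hsep.ne_zero
  have hroots : F.rootSet L = Set.range y := by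
    ext z
    rw [mem_rootSet_of_ne hF0, aeval_def, ← eval_map, hF, eval_prod, Finset.prod_eq_zero_iff]
    simp only [Finset.mem_univ, true_and, eval_sub, eval_X, eval_C, sub_eq_zero, Set.mem_range]
    exact ⟨fun ⟨i, hi⟩ => ⟨i, hi.symm⟩, fun ⟨i, hi⟩ => ⟨i, hi.symm⟩⟩
  have hsplit : (F.map (algebraMap K L)).Splits := by
    rw [hF]
    exact Splits.prod fun i _ => Splits.X_sub_C _
  have hSF : F.IsSplittingField K L :=
    isSplittingField_iff_intermediateField.2 ⟨hsplit, by rw [hroots, hgen]⟩
  have hnorm : Normal K L := Normal.of_isSplittingField F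
  have hfd : FiniteDimensional K L := IsSplittingField.finiteDimensional L F
  let Ω := AlgebraicClosure 𝓚
  let φ : L →ₐ[K] Ω := IsAlgClosed.lift
  let _ : Algebra L Ω := φ.toRingHom.toAlgebra
  have htow : IsScalarTower K L Ω := IsScalarTower.of_algebraMap_eq fun x => (φ.commutes x).symm
  have hφ : ∀ z, algebraMap L Ω z = φ z := fun z => rfl
  have hqsep : q.Separable := by
    have h1 : (F.map (algebraMap K 𝓚)).Separable := hsep.map
    rw [hq] at h1
    exact h1.of_mul_left
  obtain ⟨τ, hτp, z, hz, hτz⟩ := h87_exists_tau (Ω := Ω) hp q hirr hqsep hdeg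
  let σ : L ≃ₐ[K] L := (τ.restrictScalars K).restrictNormal L
  have hσ : ∀ x, φ (σ x) = τ (φ x) := fun x =>
    AlgEquiv.restrictNormal_commutes (τ.restrictScalars K) L x
  -- the roots in `Ω`
  have hact : ∀ i, φ (y (θ σ i)) = τ (φ (y i)) := fun i => by rw [← hθ, hσ]
  have hFΩ : F.map (algebraMap K Ω) = ∏ i, (X - C (φ (y i))) := by
    rw [IsScalarTower.algebraMap_eq K L Ω, ← Polynomial.map_map, hF, Polynomial.map_prod]
    exact Finset.prod_congr rfl fun i _ => by
      rw [Polynomial.map_sub, Polynomial.map_X, Polynomial.map_C, hφ]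
  have hqΩ : F.map (algebraMap K Ω) = q.map (algebraMap 𝓚 Ω) *
      (s.map (fun a => X - C (algebraMap 𝓚 Ω a))).prod := by
    rw [IsScalarTower.algebraMap_eq K 𝓚 Ω, ← Polynomial.map_map, hq, Polynomial.map_mul,
      Polynomial.map_multiset_prod, Multiset.map_map]
    congr 3
    funext a
    simp
  have hcases : ∀ i, φ (y i) ∈ q.rootSet Ω ∨ ∃ a, algebraMap 𝓚 Ω a = φ (y i) := by
    intro i
    have h1 : (F.map (algebraMap K Ω)).eval (φ (y i)) = 0 := by
      rw [hFΩ, eval_prod]
      exact Finset.prod_eq_zero (Finset.mem_univ i) (by simp)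
    rw [hqΩ, eval_mul, mul_eq_zero] at h1
    rcases h1 with h1 | h1
    · left
      rw [mem_rootSet_of_ne hirr.ne_zero, aeval_def, ← eval_map, h1]
    · right
      rw [eval_multiset_prod, Multiset.map_map, Multiset.prod_eq_zero_iff] at h1
      obtain ⟨a, _, ha⟩ := Multiset.mem_map.1 h1
      refine ⟨a, ?_⟩
      simp only [Function.comp_apply, eval_sub, eval_X, eval_C] at ha
      exact (sub_eq_zero.1 ha).symm
  have hfix : ∀ i, φ (y i) ∉ q.rootSet Ω → θ σ i = i := by
    intro i hi
    obtain ⟨a, ha⟩ := (hcases i).resolve_left hi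
    apply hy
    apply φ.toRingHom.injective
    change φ _ = φ _
    rw [hact, ← ha, AlgEquiv.commutes]
  have hpow : ∀ (k : ℕ) (i : Fin n), φ (y (((θ σ) ^ k) i)) = (τ ^ k) (φ (y i)) := by
    intro k i
    induction k with
    | zero => simp
    | succ k ih =>
      rw [pow_succ', pow_succ', Perm.mul_apply, AlgEquiv.mul_apply, hact, ih]
  have hp1 : (θ σ) ^ p = 1 := by
    ext1 i
    by_cases hi : φ (y i) ∈ q.rootSet Ω
    · apply hy
      apply φ.toRingHom.injective
      change φ _ = φ _
      rw [hpow, hτp _ hi]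
      rfl
    · have h1 := hfix i hi
      exact Perm.pow_apply_eq_self_of_apply_eq_self h1 p
  obtain ⟨i, hi⟩ : ∃ i, φ (y i) = z := by
    have h1 : (F.map (algebraMap K Ω)).eval z = 0 := by
      rw [hqΩ, eval_mul, eval_map, ← aeval_def, ((mem_rootSet_of_ne hirr.ne_zero).1 hz), zero_mul]
    rw [hFΩ, eval_prod, Finset.prod_eq_zero_iff] at h1
    obtain ⟨i, _, hi⟩ := h1
    refine ⟨i, ?_⟩
    simp only [eval_sub, eval_X, eval_C] at hi
    exact (sub_eq_zero.1 hi).symm
  have hne : θ σ ≠ 1 := by
    intro h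
    apply hτz
    rw [← hi, ← hact, h]
    rfl
  have := Fact.mk hp
  have hord : orderOf (θ σ) = p := orderOf_eq_prime hp1 hne
  have hsupp : (θ σ).support.card ≤ p := by
    have h1 : ((θ σ).support.image fun i => φ (y i)) ⊆ (q.rootSet Ω).toFinset := by
      intro w hw
      obtain ⟨i, hi, rfl⟩ := Finset.mem_image.1 hw
      rw [Set.mem_toFinset]
      by_contra hcon
      exact (Perm.mem_support.1 hi) (hfix i hcon)
    have h2 : ((θ σ).support.image fun i => φ (y i)).card = (θ σ).support.card :=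
      Finset.card_image_of_injective _ (φ.toRingHom.injective.comp hy)
    rw [← h2]
    refine (Finset.card_le_card h1).trans ?_
    have h3 : (q.rootSet Ω).toFinset = (q.aroots Ω).toFinset := by
      ext w
      rw [Set.mem_toFinset, rootSet_def, Finset.mem_coe]
    rw [h3]
    refine (Multiset.toFinset_card_le _).trans ?_
    refine (card_roots' _).trans ?_
    rw [natDegree_map, hdeg]
  have hcyc : (θ σ).IsCycle := by
    apply Perm.isCycle_of_prime_order
    · rw [hord]; exact hp
    · rw [hord]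
      have := hp.pos
      omega
  exact ⟨σ, hcyc, by rw [← hcyc.orderOf, hord]⟩

end Pool.Agent.Helper41.AN
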